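import Pool.Agent.REC.Fin

/-!
# MP_3998cf_nt: patterns of consecutive differences of square roots of primes

`ρ(x) = (log log x) ^ 2 log log log log x / (log log log x) ^ 2`.  For every `m` there are `c > 0` and `K ≥ 1`
such that

* for every slowly varying `f` with `log x = o(f x)` and `f x ≤ c log x ρ(x)` for large `x`, and for all
  `0 ≤ β_1 < … < β_K ≤ 1`, there are indices `i_0 < … < i_m` and a strictly increasing sequence `n_t` with
  `2 √(p (n_t + r)) d (n_t + r) / f (p (n_t + r)) → β_{i_{r+1}} - β_{i_r}`, simultaneously for `r < m`;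
* infinitely often `d n, …, d (n + m - 1)` are all at least `c log p ρ(p) / √p` (`p` the corresponding prime).

The proof makes the survivors of an Erdős–Rankin choice of residue classes either attract primes (chosen subsets of
`K` short clusters) or repel primes (all the others); primes are needed in all reduced residue classes modulo the product of
the primes up to a constant times `log P`, with few primes removed at random, for infinitely many scales `P`.
-/

set_option autoImplicit false

namespace Pool.Agent.Results.MP_3998cf_nt.GapPatterns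

open Filter Topology

/-- the primes `2, 3, 5, …`, indexed from `0` -/
noncomputable def p (n : ℕ) : ℕ := Nat.nth Nat.Prime n

/-- `√p_{n+1} - √p_n` -/
noncomputable def d (n : ℕ) : ℝ := √(p (n + 1)) - √(p n)

/-- `(log log x) ^ 2 log log log log x / (log log log x) ^ 2` -/
noncomputable def ρ (x : ℝ) : ℝ :=
  Real.log (Real.log x) ^ 2 * Real.log (Real.log (Real.log (Real.log x))) /
    Real.log (Real.log (Real.log x)) ^ 2

/-- `f(y)/f(x) → 1` uniformly for `x ≤ y ≤ 2 x`, as `x → ∞` -/
def Slow (f : ℝ → ℝ) : Prop :=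
  ∀ δ : ℝ, 0 < δ → ∀ᶠ x in atTop, ∀ y : ℝ, x ≤ y → y ≤ 2 * x → |f y - f x| ≤ δ * f x

theorem result (m : ℕ) : ∃ c : ℝ, 0 < c ∧ ∃ K : ℕ, 0 < K ∧
    (∀ f : ℝ → ℝ, Slow f → Tendsto (fun x => f x / Real.log x) atTop atTop →
      (∀ᶠ x in atTop, f x ≤ c * (Real.log x * ρ x)) →
      ∀ β : Fin K → ℝ, StrictMono β → (∀ i, 0 ≤ β i ∧ β i ≤ 1) →
      ∃ i : Fin (m + 1) → Fin K, StrictMono i ∧ ∃ n : ℕ → ℕ, StrictMono n ∧
        ∀ r : Fin m, Tendsto (fun t => 2 * √(p (n t + r)) * d (n t + r) / f (p (n t + r))) atTop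
          (𝓝 (β (i r.succ) - β (i r.castSucc)))) ∧
    (∃ᶠ n : ℕ in atTop, ∀ r < m,
      c * (Real.log (p (n + r)) * ρ (p (n + r))) / √(p (n + r)) ≤ d (n + r)) := by
  obtain ⟨c1, hc1, K, hK, h1⟩ := REC.patterns m
  obtain ⟨c2, hc2, h2⟩ := REC.chain m
  have hρ : ∀ x : ℝ, Real.log x * ρ x = REC.rho x := fun x => rfl
  refine ⟨min c1 c2, lt_min hc1 hc2, K, hK, ?_, ?_⟩
  · intro f hf hfl hfr β hβ hβ01
    refine h1 f hf hfl ?_ β hβ hβ01
    filter_upwards [hfr, REC.rho_pos] with x hx1 hx2
    rw [hρ] at hx1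
    exact hx1.trans (mul_le_mul_of_nonneg_right (min_le_left _ _) hx2.le)
  · rw [frequently_atTop]
    intro N
    have hpt : Tendsto (fun k : ℕ => (p k : ℝ)) atTop atTop :=
      tendsto_natCast_atTop_atTop.comp (Nat.nth_strictMono Nat.infinite_setOfPred_prime).tendsto_atTop
    obtain ⟨N1, hN1⟩ := eventually_atTop.1 (hpt.eventually REC.rho_pos)
    obtain ⟨n, hn, h3⟩ := h2 (max N N1)
    refine ⟨n, (le_max_left _ _).trans hn, fun r hr => ?_⟩
    have h4 := h3 r hr
    have h5 : 0 < REC.rho (p (n + r)) := hN1 _ (((le_max_right _ _).trans hn).trans (Nat.le_add_right _ _))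
    have h6 : (AT.pn (n + r)) = (p (n + r) : ℝ) := rfl
    have h7 : AT.dn (n + r) = d (n + r) := rfl
    rw [h6, h7] at h4
    rw [hρ]
    refine le_trans ?_ h4
    have h8 : (0 : ℝ) ≤ √(p (n + r)) := Real.sqrt_nonneg _
    exact div_le_div_of_nonneg_right (mul_le_mul_of_nonneg_right (min_le_right _ _) h5.le) h8

end Pool.Agent.Results.MP_3998cf_nt.GapPatterns
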